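import Pool.Agent.H8.DS.TarG

/-!
# Board ds, module UPZ: the first event above a point
-/

namespace DS

open Set Data

namespace UPZ

variable {C S : Type}

/-- two points of a horizontal lift have the same height -/
theorem same_height (X : Data C S) (s : S) (g : ℝ × ℝ × ℝ) (ξ ξ' : ℝ) :
    (act g (X.pt s ξ)).2 = (act g (X.pt s ξ')).2 := rfl

/-- near `z`, no point strictly above `z` on the line is impure -/
theorem near [Finite S] (hI : T_ISOL) (X : Data C S) (hX : X.Surface) (t : ℝ) (c : C)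
    (z : ℝ × ℝ) (hz : X.Hopf c → z ≠ 0) : ∃ η > 0, ∀ k, |k| < η →
      ¬ X.Pure c (fwd t z k) → k = 0 := by
  obtain ⟨δ, hδ, hI⟩ := hI C S X hX c z hz
  have ht : 0 < 1 + |t| := by positivity
  refine ⟨δ / (1 + |t|), div_pos hδ ht, ?_⟩
  intro k hk hp
  have h1 : |k| * (1 + |t|) < δ := (lt_div_iff₀ ht).1 hk
  have h2 : |k| < δ := by nlinarith [abs_nonneg k, abs_nonneg t, mul_nonneg (abs_nonneg k) (abs_nonneg t)]
  have h3 : |t * k| < δ := by
    rw [abs_mul]
    nlinarith [abs_nonneg k, abs_nonneg t, mul_nonneg (abs_nonneg k) (abs_nonneg t)]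
  obtain ⟨s, _, g, _, ξ, _, ξ', _, e1, e2⟩ := hI (fwd t z k)
    (by simpa only [fwd, add_sub_cancel_left] using h3)
    (by simpa only [fwd, add_sub_cancel_left] using h2) hp
  have e3 := congrArg Prod.snd e1
  have e4 := congrArg Prod.snd e2
  rw [same_height X s g ξ ξ'] at e3
  rw [← e3] at e4
  simp only [fwd] at e4
  linarith

/-- if moreover `z` is pure -/
theorem near' [Finite S] (hI : T_ISOL) (X : Data C S) (hX : X.Surface) (t : ℝ) (c : C)
    (z : ℝ × ℝ) (hz : X.Pure c z) : ∃ η > 0, ∀ k, |k| < η → X.Pure c (fwd t z k) := by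
  obtain ⟨η, hη, h⟩ := near hI X hX t c z hz.2
  refine ⟨η, hη, ?_⟩
  intro k hk
  by_contra hp
  have h0 := h k hk hp
  rw [h0, fwd_zero] at hp
  exact hp hz

end UPZ

theorem pf_UPZ (h : T_ISOL) : T_UPZ := by
  intro C S _ X hX t c z hz
  by_cases hK : ∀ k > 0, X.Pure c (fwd t z k)
  · exact Or.inl hK
  right
  push Not at hK
  obtain ⟨k₀, hk₀, hp₀⟩ := hK
  obtain ⟨η, hη, hnear⟩ := UPZ.near h X hX t c z hz
  let K : Set ℝ := {k | 0 < k ∧ ¬ X.Pure c (fwd t z k)}
  have hne : K.Nonempty := ⟨k₀, hk₀, hp₀⟩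
  have hlow : ∀ k ∈ K, η ≤ k := by
    rintro k ⟨hk, hp⟩
    by_contra hlt
    have h1 : |k| < η := by
      rw [abs_of_pos hk]
      exact not_le.1 hlt
    exact hk.ne' (hnear k h1 hp)
  have hbdd : BddBelow K := ⟨η, hlow⟩
  have hge : η ≤ sInf K := le_csInf hne hlow
  have hpos : 0 < sInf K := lt_of_lt_of_le hη hge
  have hmem : ¬ X.Pure c (fwd t z (sInf K)) := by
    intro hp
    obtain ⟨η', hη', hn⟩ := UPZ.near' h X hX t c _ hp
    obtain ⟨k, hk, hlt⟩ := exists_lt_of_csInf_lt hne (show sInf K < sInf K + η' by linarith)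
    have hle : sInf K ≤ k := csInf_le hbdd hk
    have h1 := hn (k - sInf K) (by
      rw [abs_of_nonneg (by linarith)]
      linarith)
    rw [fwd_add, add_sub_cancel] at h1
    exact hk.2 h1
  have hclear : X.Clear t c z (sInf K) := by
    intro k hk hlt
    by_contra hp
    exact absurd (csInf_le hbdd (show k ∈ K from ⟨hk, hp⟩)) (not_le.2 hlt)
  by_cases hslit : X.OnSlit c (fwd t z (sInf K))
  · obtain ⟨s, hs, g, hg, ξ, hξ, he⟩ := hslit
    rcases eq_or_lt_of_le hξ.1 with h0 | h0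
    · right
      left
      refine ⟨sInf K, hpos, hclear, s, hs, g, hg, Or.inl ?_⟩
      rw [he, ← h0]
    · rcases eq_or_lt_of_le hξ.2 with h1 | h1
      · right
        left
        refine ⟨sInf K, hpos, hclear, s, hs, g, hg, Or.inr ?_⟩
        rw [he, h1]
      · left
        exact ⟨s, hs, g, hg, ξ, ⟨h0, h1⟩, sInf K, hpos, hclear, he⟩
  · right
    right
    have h2 : ¬ (X.Hopf c → fwd t z (sInf K) ≠ 0) := fun h3 => hmem ⟨hslit, h3⟩
    push Not at h2
    exact ⟨h2.1, sInf K, hpos, hclear, h2.2⟩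

end DS
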