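import Pool.Agent.H8.DS.TarA

/-!
# Board ds, module XDISJ: exit words have disjoint sets of starting points
-/

namespace DS

open Set

theorem pf_XDISJ : T_XDISJ := by
  intro S B Y fl ex hfl w
  induction w with
  | nil =>
    intro w' _ hw' y y₁ y₂ h1 hx1 h2 _
    simp only [Sys.Go] at h1
    subst h1
    cases w' with
    | nil => rfl
    | cons b' v' =>
      exfalso
      apply hfl b' (hw' b' List.mem_cons_self)
      rw [h2.1]
      exact hx1
  | cons b v ih =>
    intro w' hw hw' y y₁ y₂ h1 hx1 h2 hx2
    cases w' with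
    | nil =>
      exfalso
      simp only [Sys.Go] at h2
      subst h2
      apply hfl b (hw b List.mem_cons_self)
      rw [h1.1]
      exact hx2
    | cons b' v' =>
      obtain ⟨a1, a2, a3⟩ := h1
      obtain ⟨c1, c2, c3⟩ := h2
      have hb : b = b' := Y.det b b' y.2 (a1.trans c1.symm) a2 c2
      subst hb
      rw [ih v' (fun x hx => hw x (List.mem_cons_of_mem _ hx))
        (fun x hx => hw' x (List.mem_cons_of_mem _ hx)) _ y₁ y₂ a3 hx1 c3 hx2]

end DS
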